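import Pool.Agent.H40.EX.A1a
import Pool.Graph.R_pool_sql_team_seeded_3997aac3.Q14.AR.Cheb

set_option autoImplicit false
set_option linter.unusedSectionVars false
set_option linter.deprecated false

namespace Pool.Agent.H40.EX

open NumberField IsDedekindDomain Pool.Agent.Q5.BR Pool.Agent.Q92.AR

/-- roots of unity of order a power of three are different modulo the primes prime to three -/
theorem root_of_mem {M : Type} [Field M] [NumberField M] {m : ℕ} {ζ : 𝓞 M}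
    (hζ : IsPrimitiveRoot ζ m) {w : Ideal (𝓞 M)} (hmw : (m : 𝓞 M) ∉ w) {a : ℕ}
    (ha : ζ ^ a - 1 ∈ w) : ζ ^ a = 1 := by
  by_contra hne
  apply hmw
  have h1 : (ζ ^ a) ^ m = 1 := by rw [← pow_mul, mul_comm, pow_mul, hζ.pow_eq_one, one_pow]
  -- `∑ (ζ ^ a) ^ i = 0`
  have h2 : ∑ i ∈ Finset.range m, (ζ ^ a) ^ i = 0 := by
    have h3 := mul_geom_sum (ζ ^ a) m
    rw [h1, sub_self] at h3
    exact (mul_eq_zero.1 h3).resolve_left (sub_ne_zero.2 hne)
  have h3 : ζ ^ a - 1 ∣ (∑ i ∈ Finset.range m, (ζ ^ a) ^ i) - m := by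
    have h4 : (∑ i ∈ Finset.range m, (ζ ^ a) ^ i) - m =
        ∑ i ∈ Finset.range m, ((ζ ^ a) ^ i - 1) := by
      rw [Finset.sum_sub_distrib]
      simp
    rw [h4]
    refine Finset.dvd_sum fun i _ => ?_
    simpa using sub_dvd_pow_sub_pow (ζ ^ a) 1 i
  rw [h2, zero_sub, dvd_neg] at h3
  exact w.mem_of_dvd h3 ha

theorem exists_v (F : Type) [Field F] [NumberField F] [IsCyclotomicExtension {3} ℚ F] (θ : 𝓞 F)
    (hθ : θ ^ 2 = -3) (hc : ¬ ∃ c : F, c ^ 3 = (θ : F)) (n B : ℕ) :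
    ∃ v : HeightOneSpectrum (𝓞 F), B < Ideal.absNorm v.asIdeal ∧ (3 : 𝓞 F) ∉ v.asIdeal ∧
      3 ^ (n + 1) ∣ Ideal.absNorm v.asIdeal - 1 ∧ ¬ ∃ y : 𝓞 F, y ^ 3 - θ ∈ v.asIdeal := by
  have hθ' : (θ : F) ^ 2 = -3 := by
    have := congrArg (algebraMap (𝓞 F) F) hθ
    rwa [map_pow, map_neg, map_ofNat] at this
  obtain ⟨M, _, _, _, _, ζ, r, g, hζ, hr, hgζ, hgr⟩ := exists_g F (θ : F) hθ' hc n
  have hB1 : {v : HeightOneSpectrum (𝓞 F) | Ideal.absNorm v.asIdeal ≤ B}.Finite := by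
    refine Set.Finite.of_finite_image (f := fun v => v.asIdeal) ?_ ?_
    · refine (Ideal.finite_setOf_absNorm_le (S := 𝓞 F) B).subset ?_
      rintro _ ⟨v, hv, rfl⟩
      exact hv
    · intro v _ w _ h
      exact HeightOneSpectrum.ext h
  have hB2 : {v : HeightOneSpectrum (𝓞 F) | (3 : 𝓞 F) ∈ v.asIdeal}.Finite := by
    have h0 : Ideal.span {(3 : 𝓞 F)} ≠ 0 := fun h => by
      have := Ideal.span_singleton_eq_bot.1 h
      norm_num at this
    exact (Ideal.finite_factors h0).subset fun v hv => Ideal.dvd_span_singleton.2 hv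
  obtain ⟨v, hv, -, w, hw, hwv, hfr⟩ := Pool.Agent.Q14.AR.cheb F M g _ (hB1.union hB2)
  rw [Set.mem_union, not_or] at hv
  have hvB : B < Ideal.absNorm v.asIdeal := not_le.1 hv.1
  have hv3 : (3 : 𝓞 F) ∉ v.asIdeal := hv.2
  set N := Ideal.absNorm v.asIdeal with hN
  have hwp : w.IsPrime := hw.isPrime
  have hw3 : (3 : 𝓞 M) ∉ w := by
    intro h
    apply hv3
    rw [← hwv, Ideal.mem_comap, map_ofNat]
    exact h
  have hwF : ∀ x : 𝓞 F, x ∈ v.asIdeal ↔ algebraMap (𝓞 F) (𝓞 M) x ∈ w := by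
    intro x
    rw [← hwv, Ideal.mem_comap]
  -- integral elements
  have hm0 : 3 ^ (n + 1) ≠ 0 := by positivity
  have hζi : IsIntegral ℤ ζ := hζ.isIntegral (by positivity)
  obtain ⟨z, hz⟩ : ∃ z : 𝓞 M, (z : M) = ζ := ⟨⟨ζ, hζi⟩, rfl⟩
  have hri : IsIntegral ℤ r := by
    refine IsIntegral.of_pow (n := 3) (by norm_num) ?_
    rw [hr]
    exact (θ.2).map (IsScalarTower.toAlgHom ℤ F M)
  obtain ⟨s, hs⟩ : ∃ s : 𝓞 M, (s : M) = r := ⟨⟨r, hri⟩, rfl⟩
  have hzp : IsPrimitiveRoot z (3 ^ (n + 1)) := by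
    have h1 : IsPrimitiveRoot (algebraMap (𝓞 M) M z) (3 ^ (n + 1)) := by
      change IsPrimitiveRoot (z : M) _
      rw [hz]
      exact hζ
    exact h1.of_map_of_injective (FaithfulSMul.algebraMap_injective (𝓞 M) M)
  have hN0 : 0 < N := by omega
  have hzN : z ^ (N - 1) = 1 := by
    refine root_of_mem hzp (w := w) ?_ ?_
    · intro h
      push_cast at h
      exact hw3 (hwp.mem_of_pow_mem _ h)
    · obtain ⟨y, hy, hyz⟩ := hfr z
      rw [hz, hgζ] at hyz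
      have h1 : y = z - z ^ N := by
        apply RingOfIntegers.ext
        rw [hyz]
        change _ = algebraMap (𝓞 M) M (z - z ^ N)
        rw [map_sub, map_pow]
        change _ = (z : M) - (z : M) ^ N
        rw [hz]
      have h2 : z - z ^ N = (-z) * (z ^ (N - 1) - 1) := by
        have : z ^ N = z * z ^ (N - 1) := by
          rw [← pow_succ']
          congr 1
          omega
        rw [this]
        ring
      rw [h1, h2] at hy
      refine (hwp.mem_or_mem hy).resolve_left fun h => ?_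
      have hu : IsUnit (-z) := (hzp.isUnit hm0).neg
      exact hwp.ne_top (Ideal.eq_top_of_isUnit_mem _ h hu)
  have hdvd : 3 ^ (n + 1) ∣ N - 1 := hzp.dvd_of_pow_eq_one _ hzN
  refine ⟨v, hvB, hv3, hdvd, ?_⟩
  rintro ⟨y, hy⟩
  -- the cube root of unity
  obtain ⟨ω, hω⟩ : ∃ ω : 𝓞 M, ω = z ^ 3 ^ n := ⟨_, rfl⟩
  have hωp : IsPrimitiveRoot ω 3 := by
    rw [hω]
    exact hzp.pow (by positivity) (by ring)
  have hω3 : ω ^ 3 = 1 := hωp.pow_eq_one
  have hI : ω ^ 2 + ω + 1 = 0 := by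
    have h1 : (ω - 1) * (ω ^ 2 + ω + 1) = 0 := by linear_combination hω3
    exact (mul_eq_zero.1 h1).resolve_left (sub_ne_zero.2 (hωp.ne_one (by norm_num)))
  have hθM : s ^ 3 = algebraMap (𝓞 F) (𝓞 M) θ := by
    apply RingOfIntegers.ext
    change algebraMap (𝓞 M) M (s ^ 3) = _
    rw [map_pow]
    change (s : M) ^ 3 = _
    rw [hs, hr]
    rfl
  set Y := algebraMap (𝓞 F) (𝓞 M) y with hY
  have h1 : Y ^ 3 - s ^ 3 ∈ w := by
    rw [hwF, map_sub, map_pow, ← hθM] at hy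
    exact hy
  -- `s ≡ ω ^ i Y`
  obtain ⟨i, hi⟩ : ∃ i : ℕ, s - ω ^ i * Y ∈ w := by
    have h2 : (s - ω ^ 0 * Y) * ((s - ω ^ 1 * Y) * (s - ω ^ 2 * Y)) = -(Y ^ 3 - s ^ 3) := by
      linear_combination (-Y * s ^ 2 + Y ^ 2 * s * ω) * hI - Y ^ 3 * hω3
    have h3 : (s - ω ^ 0 * Y) * ((s - ω ^ 1 * Y) * (s - ω ^ 2 * Y)) ∈ w := by
      rw [h2]
      exact w.neg_mem h1
    rcases hwp.mem_or_mem h3 with h4 | h4
    · exact ⟨0, h4⟩
    · rcases hwp.mem_or_mem h4 with h4 | h4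
      · exact ⟨1, h4⟩
      · exact ⟨2, h4⟩
  -- Frobenius at `Y` and at `s`
  have hYN : Y - Y ^ N ∈ w := by
    obtain ⟨y1, hy1, hyz⟩ := hfr Y
    have h2 : y1 = Y - Y ^ N := by
      apply RingOfIntegers.ext
      rw [hyz]
      change _ = algebraMap (𝓞 M) M (Y - Y ^ N)
      rw [map_sub, map_pow]
      change _ = (Y : M) - (Y : M) ^ N
      congr 1
      exact g.commutes (y : F)
    rwa [← h2]
  have hωN : ω ^ N = ω := by
    obtain ⟨k, hk⟩ := (dvd_pow_self 3 (Nat.succ_ne_zero n)).trans hdvd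
    have h2 : N = 3 * k + 1 := by omega
    rw [h2, pow_succ, pow_mul, hω3, one_pow, one_mul]
  have hsN : s ^ N - s ∈ w := by
    have h2 : s ^ N - (ω ^ i * Y) ^ N ∈ w := w.mem_of_dvd (sub_dvd_pow_sub_pow _ _ N) hi
    have h3 : (ω ^ i * Y) ^ N = ω ^ i * Y ^ N := by
      rw [mul_pow, ← pow_mul, mul_comm i N, pow_mul, hωN]
    have h4 : s ^ N - s = (s ^ N - (ω ^ i * Y) ^ N) - ω ^ i * (Y - Y ^ N) - (s - ω ^ i * Y) := by
      rw [h3]
      ring
    rw [h4]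
    exact w.sub_mem (w.sub_mem h2 (w.mul_mem_left _ hYN)) hi
  obtain ⟨y1, hy1, hyz⟩ := hfr s
  obtain ⟨e, he⟩ : ∃ e : 𝓞 M, e = y1 + s ^ N := ⟨_, rfl⟩
  have heM : (e : M) = g r := by
    have h2 : algebraMap (𝓞 M) M e = algebraMap (𝓞 M) M y1 + algebraMap (𝓞 M) M s ^ N := by
      rw [he, map_add, map_pow]
    change algebraMap (𝓞 M) M e = _
    rw [h2]
    change (y1 : M) + (s : M) ^ N = _
    rw [hyz, hs]
    ring
  have hes : e - s ∈ w := by
    have h2 : e - s = y1 + (s ^ N - s) := by rw [he]; ring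
    rw [h2]
    exact w.add_mem hy1 hsN
  have hene : e ≠ s := by
    intro h
    apply hgr
    rw [← heM, h, hs]
  have he3 : e ^ 3 = s ^ 3 := by
    apply RingOfIntegers.ext
    change algebraMap (𝓞 M) M (e ^ 3) = algebraMap (𝓞 M) M (s ^ 3)
    rw [map_pow, map_pow]
    change (e : M) ^ 3 = (s : M) ^ 3
    rw [heM, hs, ← map_pow, hr, g.commutes]
  have h5 : e ^ 2 + e * s + s ^ 2 = 0 := by
    have h2 : (e - s) * (e ^ 2 + e * s + s ^ 2) = 0 := by linear_combination he3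
    exact (mul_eq_zero.1 h2).resolve_left (sub_ne_zero.2 hene)
  have h6 : 3 * s ^ 2 ∈ w := by
    have h2 : 3 * s ^ 2 = -((e - s) * (e + 2 * s)) := by linear_combination h5
    rw [h2]
    exact w.neg_mem (w.mul_mem_right _ hes)
  rcases hwp.mem_or_mem h6 with h7 | h7
  · exact hw3 h7
  · have h8 : s ∈ w := hwp.mem_of_pow_mem _ h7
    apply hw3
    have h9 : (3 : 𝓞 M) = -(s ^ 5 * s) := by
      have h10 : (s ^ 3) ^ 2 = -3 := by
        rw [hθM, ← map_pow, hθ, map_neg, map_ofNat]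
      linear_combination h10
    rw [h9]
    exact w.neg_mem (w.mul_mem_left _ h8)

end Pool.Agent.H40.EX
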