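import Pool.Agent.H62.EX.Stm
import Pool.Agent.H40.EX.A1b

/-! # Job EX-A1: the prime `π` (Chebotarev) -/

set_option autoImplicit false
set_option linter.unusedSectionVars false
set_option linter.deprecated false

namespace Pool.Agent.H40.EX

open NumberField IsDedekindDomain
open Pool.Agent.W192.HK Pool.Agent.TH936.CM Pool.Agent.TH936.PU
open Pool.Agent.Y696 (eis om int_rep exists_emb isoE isoE_coe qe nm_sp norm_rep)

section
variable {F : Type} [Field F] [NumberField F] [IsCyclotomicExtension {3} ℚ F] {ζ : F}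

theorem absNorm_eq (hζ : IsPrimitiveRoot ζ 3) (a b : ℤ) :
    (Ideal.absNorm (Ideal.span {(a : 𝓞 F) + b * hζ.toInteger}) : ℤ) = a ^ 2 - a * b + b ^ 2 := by
  obtain ⟨σ, hσ⟩ := exists_emb hζ
  have h1 := nm_sp (isoE hζ σ hσ ((a : 𝓞 F) + b * hζ.toInteger))
  have h2 : ((isoE hζ σ hσ ((a : 𝓞 F) + b * hζ.toInteger) : eis) : ℂ) = (a : ℂ) + b * om := by
    rw [isoE_coe]
    change σ (algebraMap (𝓞 F) F _) = _
    rw [map_add, map_mul, map_intCast, map_intCast, map_add, map_mul, map_intCast, map_intCast]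
    change (a : ℂ) + b * σ ζ = _
    rw [hσ]
  rw [h2, norm_rep] at h1
  have h3 : Ideal.absNorm (Ideal.span {(a : 𝓞 F) + b * hζ.toInteger}) =
      Nat.card (eis ⧸ (sp (isoE hζ σ hσ ((a : 𝓞 F) + b * hζ.toInteger)) : Ideal eis)) := by
    rw [Ideal.absNorm_apply]
    exact (Nat.card_congr (qe (isoE hζ σ hσ) _).toEquiv).symm
  rw [h3]
  unfold nm at h1
  exact_mod_cast h1

/-- a unit multiple which is one modulo three -/
theorem exists_primary (hζ : IsPrimitiveRoot ζ 3) (p : 𝓞 F)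
    (h3 : 3 ∣ Ideal.absNorm (Ideal.span {p}) - 1) (hpos : 0 < Ideal.absNorm (Ideal.span {p})) :
    ∃ u : 𝓞 F, IsUnit u ∧ 3 ∣ u * p - 1 := by
  obtain ⟨a, b, rfl⟩ := int_rep hζ p
  have hN := absNorm_eq hζ a b
  set z := hζ.toInteger with hz
  have hz3 : z ^ 3 = 1 := hζ.toInteger_isPrimitiveRoot.pow_eq_one
  have hz1 : z ≠ 1 := hζ.toInteger_isPrimitiveRoot.ne_one (by norm_num)
  have hI : z ^ 2 + z + 1 = 0 := by
    have h5 : (z - 1) * (z ^ 2 + z + 1) = 0 := by linear_combination hz3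
    exact (mul_eq_zero.1 h5).resolve_left (sub_ne_zero.2 hz1)
  have hzu : IsUnit z := IsUnit.of_pow_eq_one hz3 (by norm_num)
  have hmod : (3 : ℤ) ∣ a ^ 2 - a * b + b ^ 2 - 1 := by
    rw [← hN]
    omega
  obtain ⟨k, hk⟩ : ∃ k, a = 3 * k ∨ a = 3 * k + 1 ∨ a = 3 * k + 2 := ⟨a / 3, by omega⟩
  obtain ⟨l, hl⟩ : ∃ l, b = 3 * l ∨ b = 3 * l + 1 ∨ b = 3 * l + 2 := ⟨b / 3, by omega⟩
  rcases hk with rfl | rfl | rfl <;> rcases hl with rfl | rfl | rfl
  · exfalso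
    have : (3 * k) ^ 2 - (3 * k) * (3 * l) + (3 * l) ^ 2 - 1 =
      3 * (3 * k ^ 2 - 3 * k * l + 3 * l ^ 2) - 1 := by ring
    omega
  · exact ⟨z ^ 2, hzu.pow 2, k * z ^ 2 + l, by push_cast; linear_combination (3 * l + 1 : 𝓞 F) * hz3⟩
  · exact ⟨-z ^ 2, (hzu.pow 2).neg, -k * z ^ 2 - l - 1, by
      push_cast; linear_combination -(3 * l + 2 : 𝓞 F) * hz3⟩
  · exact ⟨1, isUnit_one, k + l * z, by push_cast; ring⟩
  · exact ⟨-z, hzu.neg, -k * z - l * z ^ 2, by push_cast; linear_combination -hI⟩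
  · exfalso
    have : (3 * k + 1) ^ 2 - (3 * k + 1) * (3 * l + 2) + (3 * l + 2) ^ 2 - 1 =
      3 * (3 * k ^ 2 - 3 * k * l + 3 * l ^ 2 + 3 * l + 1) - 1 := by ring
    omega
  · exact ⟨-1, isUnit_one.neg, -k - l * z - 1, by push_cast; ring⟩
  · exfalso
    have : (3 * k + 2) ^ 2 - (3 * k + 2) * (3 * l + 1) + (3 * l + 1) ^ 2 - 1 =
      3 * (3 * k ^ 2 - 3 * k * l + 3 * l ^ 2 + 3 * k + 1) - 1 := by ring
    omega
  · exact ⟨z, hzu, k * z + l * z ^ 2 - 1, by push_cast; linear_combination 2 * hI⟩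

/-- `3 √-3` divides `π - 1` -/
theorem dvd_of_norm (hζ : IsPrimitiveRoot ζ 3) {θ : 𝓞 F} (hθ : θ ^ 2 = -3) {π : 𝓞 F}
    (h3 : 3 ∣ π - 1) (h9 : 9 ∣ Ideal.absNorm (Ideal.span {π}) - 1)
    (hpos : 0 < Ideal.absNorm (Ideal.span {π})) : 3 * θ ∣ π - 1 := by
  obtain ⟨t, ht⟩ := h3
  obtain ⟨a, b, rfl⟩ := int_rep hζ t
  have hπ : π = ((1 + 3 * a : ℤ) : 𝓞 F) + ((3 * b : ℤ) : 𝓞 F) * hζ.toInteger := by
    push_cast
    linear_combination ht
  have hN := absNorm_eq hζ (1 + 3 * a) (3 * b)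
  rw [← hπ] at hN
  set z := hζ.toInteger with hz
  have hz3 : z ^ 3 = 1 := hζ.toInteger_isPrimitiveRoot.pow_eq_one
  have hz1 : z ≠ 1 := hζ.toInteger_isPrimitiveRoot.ne_one (by norm_num)
  have hI : z ^ 2 + z + 1 = 0 := by
    have h5 : (z - 1) * (z ^ 2 + z + 1) = 0 := by linear_combination hz3
    exact (mul_eq_zero.1 h5).resolve_left (sub_ne_zero.2 hz1)
  have h9' : (9 : ℤ) ∣ (1 + 3 * a) ^ 2 - (1 + 3 * a) * (3 * b) + (3 * b) ^ 2 - 1 := by
    rw [← hN]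
    omega
  obtain ⟨m, hm⟩ := h9'
  have h4 : 6 * a - 3 * b = 9 * (m - a ^ 2 + a * b - b ^ 2) := by linear_combination hm
  obtain ⟨k, hk⟩ : ∃ k, a + b = 3 * k := ⟨(a + b) / 3, by omega⟩
  have hb : b = 3 * k - a := by omega
  have hb' : (b : 𝓞 F) = 3 * k - a := by rw [hb]; push_cast; ring
  have h6 : 3 * (2 * z + 1) ∣ π - 1 := by
    refine ⟨(2 * k - a) + (k - a) * z, ?_⟩
    rw [ht, hb']
    linear_combination -(6 * (k - a) : 𝓞 F) * hI
  have hθ2 : θ = 2 * z + 1 ∨ θ = -(2 * z + 1) := by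
    have h1 : (θ - (2 * z + 1)) * (θ + (2 * z + 1)) = 0 := by
      linear_combination hθ - 4 * hI
    rcases mul_eq_zero.1 h1 with h2 | h2
    · exact Or.inl (sub_eq_zero.1 h2)
    · exact Or.inr (eq_neg_of_add_eq_zero_left h2)
  rcases hθ2 with h | h
  · rwa [h]
  · rw [h, mul_neg, neg_dvd]
    exact h6

/-- `√-3` is not a cube -/
theorem theta_not_cube {θ : 𝓞 F} (hθ : θ ^ 2 = -3) : ¬ ∃ c : F, c ^ 3 = (θ : F) := by
  rintro ⟨c, hc⟩
  have hci : IsIntegral ℤ c := IsIntegral.of_pow (n := 3) (by norm_num) (hc ▸ θ.2)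
  obtain ⟨d, hd⟩ : ∃ d : 𝓞 F, (d : F) = c := ⟨⟨c, hci⟩, rfl⟩
  have h1 : d ^ 6 = -3 := by
    have h2 : d ^ 3 = θ := by
      apply RingOfIntegers.ext
      change algebraMap (𝓞 F) F (d ^ 3) = _
      rw [map_pow]
      change (d : F) ^ 3 = _
      rw [hd, hc]
    rw [← hθ, ← h2]
    ring
  have h2 : Ideal.absNorm (Ideal.span {d}) ^ 6 = 9 := by
    rw [← map_pow, Ideal.span_singleton_pow, h1]
    have h3 : Ideal.span {(-3 : 𝓞 F)} = Ideal.span {((3 : ℕ) : 𝓞 F)} := by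
      rw [Ideal.span_singleton_neg]
      norm_num
    rw [h3, Ideal.absNorm_span_natCast, RingOfIntegers.rank, IsCyclotomicExtension.finrank (n := 3) F
      (Polynomial.cyclotomic.irreducible_rat (by norm_num))]
    rfl
  generalize Ideal.absNorm (Ideal.span {d}) = k at h2
  rcases Nat.lt_or_ge k 2 with h | h
  · interval_cases k <;> omega
  · have := Nat.pow_le_pow_left h 6
    omega

end

/-- JOB A1. -/
theorem sA1 : Pool.Agent.H62.EX.S_A1 := by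
  intro F _ _ _ θ hθ n B hn
  have hpid := IsCyclotomicExtension.Rat.three_pid F
  obtain ⟨ζ, hζ⟩ := IsCyclotomicExtension.exists_isPrimitiveRoot ℚ F
    (Set.mem_singleton 3) (by norm_num)
  obtain ⟨v, hvB, hv3, hdvd, hy⟩ := exists_v F θ hθ (theta_not_cube hθ) n B
  obtain ⟨p, hp⟩ := (IsPrincipalIdealRing.principal v.asIdeal).principal
  have hp' : v.asIdeal = Ideal.span {p} := hp
  have hp0 : p ≠ 0 := by
    rintro rfl
    exact v.ne_bot (by rw [hp', Ideal.span_singleton_eq_bot])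
  have hpp : Prime p := (Ideal.span_singleton_prime hp0).1 (hp' ▸ v.isPrime)
  rw [hp'] at hvB hdvd hy
  have h9 : (9 : ℕ) ∣ 3 ^ (n + 1) := by
    have : (9 : ℕ) = 3 ^ 2 := by norm_num
    rw [this]
    exact pow_dvd_pow _ (by omega)
  obtain ⟨u, hu, h3⟩ := exists_primary hζ p (((by norm_num : (3 : ℕ) ∣ 9).trans h9).trans hdvd)
    (by omega)
  have hass : Associated p (u * p) := by
    obtain ⟨u, rfl⟩ := hu
    exact ⟨u, mul_comm _ _⟩
  have hsp : Ideal.span {u * p} = Ideal.span {p} :=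
    Ideal.span_singleton_eq_span_singleton.2 hass.symm
  refine ⟨u * p, (hass.prime_iff).1 hpp, ?_, ?_, ?_, ?_⟩
  · refine dvd_of_norm hζ hθ h3 ?_ ?_
    · rw [hsp]
      exact h9.trans hdvd
    · rw [hsp]
      omega
  · rwa [hsp]
  · rwa [hsp]
  · rintro ⟨y, hy2⟩
    refine hy ⟨y, ?_⟩
    rw [← hsp, Ideal.mem_span_singleton]
    exact hy2

end Pool.Agent.H40.EX
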