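import Pool.Agent.H40.EX.Core

set_option autoImplicit false
set_option linter.unusedSectionVars false
set_option linter.deprecated false

namespace Pool.Agent.H40.EX

open NumberField IsDedekindDomain Pool.Agent.Q5.BR Pool.Agent.Q92.AR

/-- `θ` is not a cube in a cyclotomic field: there is an automorphism that fixes the roots of unity and
moves the cube root of `θ`. -/
theorem exists_g (F : Type) [Field F] [NumberField F] [IsCyclotomicExtension {3} ℚ F] (θ : F)
    (hθ : θ ^ 2 = -3) (hc : ¬ ∃ c : F, c ^ 3 = θ) (n : ℕ) :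
    ∃ (M : Type) (_ : Field M) (_ : NumberField M) (_ : Algebra F M) (_ : IsGalois F M)
      (ζ r : M) (g : M ≃ₐ[F] M), IsPrimitiveRoot ζ (3 ^ (n + 1)) ∧ r ^ 3 = algebraMap F M θ ∧
        g ζ = ζ ∧ g r ≠ r := by
  obtain ⟨M, _, _, i, _, _, _, ζ2, r0, hζ2, hr0⟩ := exists_big ℚ F (2 * 3 ^ (n + 1)) (by positivity) (-3)
  obtain rfl : i = DivisionRing.toRatAlgebra := Subsingleton.elim _ _
  have hGF : IsGalois F M := IsGalois.tower_top_of_isGalois ℚ F M
  obtain ⟨ζ, hζ⟩ : ∃ ζ : M, IsPrimitiveRoot ζ (3 ^ (n + 1)) :=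
    ⟨ζ2 ^ 2, hζ2.pow (by positivity) rfl⟩
  set t : M := algebraMap F M θ with ht
  have ht2 : t ^ 2 = -3 := by
    rw [ht, ← map_pow, hθ, map_neg, map_ofNat]
  have h3 : (3 : M) ≠ 0 := by norm_num
  have h2 : (2 : M) ≠ 0 := by norm_num
  have hr6 : (r0 ^ 3 ^ n) ^ 6 = -3 := by
    rw [← pow_mul]
    have e1 : 3 ^ n * 6 = 2 * 3 ^ (n + 1) := by ring
    rw [e1, hr0, map_neg, map_ofNat]
  obtain ⟨r, hr⟩ : ∃ r : M, r ^ 3 = t := by
    have h4 : ((r0 ^ 3 ^ n) ^ 3 - t) * ((r0 ^ 3 ^ n) ^ 3 + t) = 0 := by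
      linear_combination hr6 - ht2
    rcases mul_eq_zero.1 h4 with h5 | h5
    · exact ⟨r0 ^ 3 ^ n, by linear_combination h5⟩
    · exact ⟨-(r0 ^ 3 ^ n), by linear_combination -h5⟩
  have ht0 : t ≠ 0 := by
    intro h
    rw [h] at ht2
    norm_num at ht2
  have hr0' : r ≠ 0 := by
    rintro rfl
    rw [zero_pow (by norm_num)] at hr
    exact ht0 hr.symm
  -- cube roots of unity
  obtain ⟨ω, hω⟩ : ∃ ω : M, t = 2 * ω + 1 := ⟨(t - 1) / 2, by field_simp; ring⟩
  have hI : ω ^ 2 + ω + 1 = 0 := by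
    have h5 : (4 : M) * (ω ^ 2 + ω + 1) = 0 := by
      rw [hω] at ht2
      linear_combination ht2
    exact (mul_eq_zero.1 h5).resolve_left (by norm_num)
  have hω3 : ω ^ 3 = 1 := by linear_combination (ω - 1) * hI
  -- the element `τ`
  obtain ⟨τ, hτ⟩ : ∃ τ : M ≃ₐ[ℚ] M, τ t ≠ t := by
    by_contra hcon
    push Not at hcon
    obtain ⟨q, hq⟩ := IntermediateField.mem_bot.1 ((IsGalois.mem_bot_iff_fixed t).2 hcon)
    have h5 : (q : ℚ) ^ 2 = -3 := by
      have h6 : algebraMap ℚ M (q ^ 2) = algebraMap ℚ M (-3) := by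
        rw [map_pow, hq, ht2, map_neg, map_ofNat]
      exact (algebraMap ℚ M).injective h6
    nlinarith [sq_nonneg q]
  have hτt : τ t = -t := by
    have h5 : (τ t - t) * (τ t + t) = 0 := by
      have h6 : τ t ^ 2 = -3 := by rw [← map_pow, ht2, map_neg, map_ofNat]
      linear_combination h6 - ht2
    rcases mul_eq_zero.1 h5 with h6 | h6
    · exact absurd (sub_eq_zero.1 h6) hτ
    · exact eq_neg_of_add_eq_zero_left h6
  have hτω : τ ω = ω ^ 2 := by
    have h5 : 2 * τ ω + 1 = -(2 * ω + 1) := by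
      rw [← hω, ← hτt, hω, map_add, map_mul, map_one, map_ofNat]
    have h6 : (2 : M) * (τ ω - ω ^ 2) = 0 := by linear_combination h5 - 2 * hI
    exact sub_eq_zero.1 ((mul_eq_zero.1 h6).resolve_left h2)
  -- the element `σ`
  obtain ⟨σ, hσ⟩ : ∃ σ : M ≃ₐ[F] M, σ r ≠ r := by
    by_contra hcon
    push Not at hcon
    obtain ⟨c, hcr⟩ := IntermediateField.mem_bot.1 ((IsGalois.mem_bot_iff_fixed r).2 hcon)
    refine hc ⟨c, (algebraMap F M).injective ?_⟩
    rw [map_pow, hcr, hr]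
  have hσt : σ t = t := σ.commutes θ
  have hσω : σ ω = ω := by
    have h5 : 2 * σ ω + 1 = 2 * ω + 1 := by
      rw [← hω, ← hσt, hω, map_add, map_mul, map_one, map_ofNat]
    have h6 : (2 : M) * (σ ω - ω) = 0 := by linear_combination h5
    exact sub_eq_zero.1 ((mul_eq_zero.1 h6).resolve_left h2)
  -- the action on `r`
  obtain ⟨c, hc1⟩ : ∃ c : M, τ r = c * r := ⟨τ r / r, by field_simp⟩
  obtain ⟨d, hd1⟩ : ∃ d : M, σ r = d * r := ⟨σ r / r, by field_simp⟩
  have hc3 : c ^ 3 = -1 := by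
    have h5 : τ r ^ 3 = -t := by rw [← map_pow, hr, hτt]
    rw [hc1, mul_pow, hr] at h5
    have h6 : (c ^ 3 + 1) * t = 0 := by linear_combination h5
    exact eq_neg_of_add_eq_zero_left ((mul_eq_zero.1 h6).resolve_right ht0)
  have hd3 : d ^ 3 = 1 := by
    have h5 : σ r ^ 3 = t := by rw [← map_pow, hr, hσt]
    rw [hd1, mul_pow, hr] at h5
    have h6 : (d ^ 3 - 1) * t = 0 := by linear_combination h5
    exact sub_eq_zero.1 ((mul_eq_zero.1 h6).resolve_right ht0)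
  have hd0 : d ≠ 1 := by
    rintro rfl
    rw [one_mul] at hd1
    exact hσ hd1
  have hσc : σ c = c := by
    have h5 : (c + 1) * ((c + ω) * (c + ω ^ 2)) = 0 := by
      linear_combination hc3 + c * (c + 1) * hI + (c + 1) * hω3
    rcases mul_eq_zero.1 h5 with h6 | h6
    · have h7 : c = -1 := by linear_combination h6
      rw [h7, map_neg, map_one]
    · rcases mul_eq_zero.1 h6 with h6 | h6
      · have h7 : c = -ω := by linear_combination h6
        rw [h7, map_neg, hσω]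
      · have h7 : c = -ω ^ 2 := by linear_combination h6
        rw [h7, map_neg, map_pow, hσω]
  have hτd : τ d = d ^ 2 := by
    have h5 : (d - 1) * ((d - ω) * (d - ω ^ 2)) = 0 := by
      linear_combination hd3 - d * (d - 1) * hI + (d - 1) * hω3
    rcases mul_eq_zero.1 ((mul_eq_zero.1 h5).resolve_left (sub_ne_zero.2 hd0)) with h6 | h6
    · rw [sub_eq_zero.1 h6, hτω]
    · rw [sub_eq_zero.1 h6, map_pow, hτω]
  let σ' : M ≃ₐ[ℚ] M := σ.restrictScalars ℚ
  have hσ' : ∀ x, σ' x = σ x := fun _ => rfl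
  have hne : σ' (τ r) ≠ τ (σ' r) := by
    rw [hσ', hσ', hc1, hd1, map_mul, map_mul, hσc, hτd, hc1, hd1]
    intro h
    have h5 : (c * d * r) * (d - 1) = 0 := by linear_combination -h
    have hcr0 : c * d * r ≠ 0 := by
      refine mul_ne_zero (mul_ne_zero ?_ ?_) hr0'
      · rintro rfl
        norm_num at hc3
      · rintro rfl
        norm_num at hd3
    exact (mul_ne_zero hcr0 (sub_ne_zero.2 hd0)) h5
  have hroot : ∀ g : M ≃ₐ[ℚ] M, ∃ a : ℕ, g ζ = ζ ^ a := by
    intro g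
    have h5 : g ζ ^ 3 ^ (n + 1) = 1 := by rw [← map_pow, hζ.pow_eq_one, map_one]
    obtain ⟨a, -, ha⟩ := hζ.eq_pow_of_pow_eq_one h5
    exact ⟨a, ha.symm⟩
  obtain ⟨a, ha⟩ := hroot σ'
  obtain ⟨b, hb⟩ := hroot τ
  have hcomm : σ' (τ ζ) = τ (σ' ζ) := by
    rw [ha, hb, map_pow, map_pow, ha, hb, ← pow_mul, ← pow_mul, mul_comm]
  have hnorm : Normal ℚ F := by
    have := IsCyclotomicExtension.isGalois {3} ℚ F
    infer_instance
  let g0 : M ≃ₐ[ℚ] M := ((τ.trans σ').trans τ.symm).trans σ'.symm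
  have hg0 : ∀ x, g0 x = σ'.symm (τ.symm (σ' (τ x))) := fun _ => rfl
  have hgF : ∀ x : F, g0 (algebraMap F M x) = algebraMap F M x := by
    intro x
    have h5 := AlgEquiv.restrictNormal_commutes τ F x
    rw [hg0, ← h5, hσ', σ.commutes, h5, AlgEquiv.symm_apply_apply, AlgEquiv.symm_apply_eq, hσ',
      σ.commutes]
  let g : M ≃ₐ[F] M := AlgEquiv.ofRingEquiv (f := g0.toRingEquiv) hgF
  have hg : ∀ x, g x = σ'.symm (τ.symm (σ' (τ x))) := fun _ => rfl
  refine ⟨M, inferInstance, inferInstance, inferInstance, hGF, ζ, r, g, hζ, hr, ?_, ?_⟩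
  · rw [hg, hcomm, AlgEquiv.symm_apply_apply, AlgEquiv.symm_apply_apply]
  · intro h
    rw [hg, AlgEquiv.symm_apply_eq, AlgEquiv.symm_apply_eq] at h
    exact hne h

end Pool.Agent.H40.EX
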