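import Pool.Agent.H40.EX.Nm
import Pool.Graph.R_pool_sql_team_seeded_3997aac3.Q20.EX.Gen0
import Pool.Graph.R_pool_sql_team_seeded_3997aac3.Q53.EX.UnrE
import Pool.Graph.R_pool_sql_team_seeded_3997aac3.Q53.EX.Desc0
import Pool.Graph.R_pool_sql_team_seeded_3997aac3.Q275.EX.Res
import Pool.Graph.R_pool_sql_team_seeded_3997aac3.Q285.EX.Ncg
import Pool.Graph.R_pool_sql_team_seeded_3997aac3.Q38.EX.Spl
import Pool.Graph.R_pool_sql_team_seeded_3997aac3.Q111.EX.Unr

/-! # Job EX-D: base change to `F(x0^(1/m))` -/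

set_option autoImplicit false
set_option linter.unusedSectionVars false
set_option linter.deprecated false

namespace Pool.Agent.H40.EX

open NumberField IsDedekindDomain Pool.Agent.Q5.BR Pool.Agent.Q92.AR Pool.Agent.Q20.EX
open Pool.Agent.Q285.EX (approx pN mem_pN val_nat_eq val_one_of_prin)

/-- a Galois extension which contains `M`, a primitive `m`-th root of unity and an `m`-th root
of `x0` -/
theorem exists_big (F M : Type) [Field F] [NumberField F] [Field M] [NumberField M] [Algebra F M]
    (m : ℕ) (hm : 0 < m) (x0 : F) : ∃ (M1 : Type) (_ : Field M1) (_ : NumberField M1)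
    (_ : Algebra F M1) (_ : Algebra M M1) (_ : IsScalarTower F M M1) (_ : IsGalois F M1)
    (ζ r : M1), IsPrimitiveRoot ζ m ∧ r ^ m = algebraMap F M1 x0 := by
  classical
  let Ω := AlgebraicClosure M
  have hne : NeZero m := ⟨hm.ne'⟩
  obtain ⟨ζ0, hζ0⟩ : ∃ ζ0 : Ω, IsPrimitiveRoot ζ0 m :=
    HasEnoughRootsOfUnity.exists_primitiveRoot Ω m
  obtain ⟨r0, hr0⟩ : ∃ r0 : Ω, r0 ^ m = algebraMap F Ω x0 := IsAlgClosed.exists_pow_nat_eq _ hm
  let L : IntermediateField M Ω := IntermediateField.adjoin M {ζ0, r0}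
  have hfin : FiniteDimensional M L := by
    have : Finite ({ζ0, r0} : Set Ω) := Set.Finite.to_subtype (Set.toFinite _)
    exact IntermediateField.finiteDimensional_adjoin
      (fun x _ => Algebra.IsIntegral.isIntegral (R := M) x)
  have hL : NumberField L := by
    have h2 : FiniteDimensional ℚ L := FiniteDimensional.trans ℚ M L
    have h3 : CharZero L := inferInstance
    exact ⟨⟩
  obtain ⟨M1, _, _, _, _, hT, hG⟩ := Pool.Agent.Q53.EX.exists_gal F L
  let iM : Algebra M M1 := ((algebraMap L M1).comp (algebraMap M L)).toAlgebra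
  have hTM : IsScalarTower F M M1 := IsScalarTower.of_algebraMap_eq fun x => by
    change algebraMap F M1 x = algebraMap L M1 (algebraMap M L (algebraMap F M x))
    rw [← IsScalarTower.algebraMap_apply F M L, ← IsScalarTower.algebraMap_apply F L M1]
  have hζL : ζ0 ∈ L := IntermediateField.subset_adjoin _ _ (by simp)
  have hrL : r0 ∈ L := IntermediateField.subset_adjoin _ _ (by simp)
  refine ⟨M1, inferInstance, inferInstance, inferInstance, iM, hTM, hG,
    algebraMap L M1 ⟨ζ0, hζL⟩, algebraMap L M1 ⟨r0, hrL⟩, ?_, ?_⟩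
  · refine IsPrimitiveRoot.map_of_injective ?_ (algebraMap L M1).injective
    have h1 : IsPrimitiveRoot (algebraMap L Ω ⟨ζ0, hζL⟩) m := hζ0
    exact h1.of_map_of_injective (algebraMap L Ω).injective
  · have h1 : (⟨r0, hrL⟩ : L) ^ m = algebraMap F L x0 := by
      apply (algebraMap L Ω).injective
      rw [map_pow]
      exact hr0
    rw [← map_pow, h1, ← IsScalarTower.algebraMap_apply F L M1]

/-- reduction to inertia elements of a larger field -/
theorem unr_of_top (F M M1 : Type) [Field F] [NumberField F] [Field M] [NumberField M] [Field M1]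
    [NumberField M1] [Algebra F M] [Algebra F M1] [Algebra M M1] [IsScalarTower F M M1]
    [IsGalois F M] [IsGalois F M1] (ψ : (M ≃ₐ[F] M) →* ℂˣ) (w : HeightOneSpectrum (𝓞 M))
    (g : M ≃ₐ[F] M) (hg : Inert w g)
    (h : ∀ w1 : HeightOneSpectrum (𝓞 M1), w1.under (𝓞 F) = w.under (𝓞 F) →
      ∀ g1 : M1 ≃ₐ[F] M1, Inert w1 g1 → ψ (AlgEquiv.restrictNormal g1 M) = 1) : ψ g = 1 := by
  classical
  let H : Subgroup (M ≃ₐ[F] M) := ψ.ker
  let E : IntermediateField F M := IntermediateField.fixedField H
  have hfix : E.fixingSubgroup = H := IntermediateField.fixingSubgroup_fixedField H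
  have hGal : IsGalois F E := IsGalois.of_fixedField_normal_subgroup H
  have hTE : IsScalarTower F E M1 := IsScalarTower.of_algebraMap_eq (R := F) (S := E) (A := M1)
    fun x => by
      have e1 : algebraMap E M1 (algebraMap F E x) = algebraMap M M1 (algebraMap F M x) := rfl
      rw [e1, ← IsScalarTower.algebraMap_apply F M M1]
  have hu : Unramified E (w.under (𝓞 F)) := by
    refine Pool.Agent.Q111.EX.unram_of_inert (M := M1) (w.under (𝓞 F)) fun w1 hw1 g1 hg1 x => ?_
    have h1 := h w1 hw1 g1 hg1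
    have h2 : AlgEquiv.restrictNormal g1 M ∈ E.fixingSubgroup := by
      rw [hfix]
      exact h1
    have h3 : AlgEquiv.restrictNormal g1 M (algebraMap E M x) = algebraMap E M x :=
      (IntermediateField.mem_fixingSubgroup_iff E _).1 h2 _ x.2
    change g1 (algebraMap M M1 (algebraMap E M x)) = algebraMap M M1 (algebraMap E M x)
    rw [← AlgEquiv.restrictNormal_commutes, h3]
  have hu' : Unramified E ((w.under (𝓞 E)).under (𝓞 F)) := by
    rw [Pool.Agent.Q280.AR.under_under F E M w]
    exact hu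
  have h1 : AlgEquiv.restrictNormal g E = 1 :=
    Pool.Agent.Q53.EX.inert_eq_one hu' (Pool.Agent.Q53.EX.inert_restrict hg)
  have h2 : g ∈ E.fixingSubgroup := by
    rw [IntermediateField.mem_fixingSubgroup_iff]
    intro x hx
    have h3 := AlgEquiv.restrictNormal_commutes g E ⟨x, hx⟩
    rw [h1] at h3
    exact h3.symm
  rw [hfix] at h2
  exact h2

/-- an inertia element fixes its prime -/
theorem act_of_inert {F M : Type} [Field F] [NumberField F] [Field M] [NumberField M] [Algebra F M]
    {w : HeightOneSpectrum (𝓞 M)} {g : M ≃ₐ[F] M} (hg : Inert w g) :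
    Pool.Agent.TeamU.act g w = w := by
  have hle : w.asIdeal ≤ (Pool.Agent.TeamU.act g w).asIdeal := by
    intro x hx
    rw [Pool.Agent.TeamU.mem_act]
    obtain ⟨y, hy⟩ : ∃ y : 𝓞 M, y = (RingOfIntegers.mapRingEquiv g.toRingEquiv).symm x :=
      ⟨_, rfl⟩
    rw [← hy]
    have h1 : (x : M) = g (y : M) := by
      rw [hy]
      exact (g.apply_symm_apply (x : M)).symm
    have h2 := hg y
    rw [← h1] at h2
    have h3 : x - y ∈ w.asIdeal := by
      rw [← w.valuation_lt_one_iff_mem (K := M)]
      exact h2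
    have h4 := w.asIdeal.sub_mem hx h3
    rwa [sub_sub_cancel] at h4
  have h1 := w.isMaximal.eq_of_le (Pool.Agent.TeamU.act g w).isPrime.ne_top hle
  exact HeightOneSpectrum.ext h1.symm

/-- an inertia element at a prime where `x0` is near to `1` fixes an `m`-th root of `x0` -/
theorem exists_fixed_root {F M : Type} [Field F] [NumberField F] [Field M] [NumberField M]
    [Algebra F M] {w : HeightOneSpectrum (𝓞 M)} {g : M ≃ₐ[F] M} (hg : Inert w g) {m : ℕ}
    (hm : 0 < m) {ζ r : M} (hζ : IsPrimitiveRoot ζ m) {x0 : F} (hr : r ^ m = algebraMap F M x0)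
    (hv : (w.under (𝓞 F)).valuation F (x0 - 1) < (w.under (𝓞 F)).valuation F (m : F) ^ 2) :
    ∃ r' : M, r' ^ m = algebraMap F M x0 ∧ g r' = r' := by
  have hover := Pool.Agent.Q38.EX.over_under (F := F) w
  set v := w.under (𝓞 F) with hvdef
  set W := w.valuation M with hW
  have hval : ∀ x : F, W (algebraMap F M x) =
      v.valuation F x ^ (v.asIdeal.ramificationIdx' w.asIdeal) := fun x =>
    Pool.Agent.TeamU.val_over hover x
  have hn0 : (m : M) ≠ 0 := Nat.cast_ne_zero.2 (by omega)
  have he : v.asIdeal.ramificationIdx' w.asIdeal ≠ 0 := Pool.Agent.Q38.EX.ram_ne_zero (F := F) w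
  have hlt : W (r ^ m - 1) < W (m : M) ^ 2 := by
    have h1 : (m : M) = algebraMap F M (m : F) := (map_natCast _ m).symm
    have h2 : r ^ m - 1 = algebraMap F M (x0 - 1) := by rw [hr, map_sub, map_one]
    rw [h2, h1, hval, hval, ← pow_mul, mul_comm _ 2, pow_mul]
    exact pow_lt_pow_left₀ hv zero_le he
  obtain ⟨θ, hθ, hle⟩ := Pool.Agent.Q38.EX.exists_root_near W hm hζ r
  have hWn : W (m : M) ≠ 0 := (Valuation.ne_zero_iff _).2 hn0
  have hWn1 : W (m : M) ≤ 1 := by
    have := w.valuation_le_one (K := M) (m : 𝓞 M)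
    simpa using this
  have hm1 : W (r - θ) < W (m : M) := by
    by_contra h
    push Not at h
    have h2 : W (m : M) * W (m : M) ≤ W (r - θ) * W (m : M) := mul_le_mul_left h _
    rw [← sq] at h2
    exact absurd (h2.trans hle) (not_le.2 hlt)
  have hθ0 : θ ≠ 0 := by
    rintro rfl
    rw [zero_pow (by omega)] at hθ
    exact zero_ne_one hθ
  have hWθ : W θ = 1 := Pool.Agent.Q38.EX.val_root W hm hθ
  set s : M := r / θ with hs
  have hsm : s ^ m = algebraMap F M x0 := by rw [hs, div_pow, hθ, div_one, hr]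
  have hs1 : W (s - 1) < W (m : M) := by
    have h1 : s - 1 = (r - θ) / θ := by
      rw [hs]
      field_simp
    rw [h1, map_div₀, hWθ, div_one]
    exact hm1
  have hWs : W s = 1 := by
    have h3 := Valuation.map_add_eq_of_lt_right W (x := s - 1) (y := 1)
      (by rw [map_one]; exact hs1.trans_le hWn1)
    rw [sub_add_cancel, map_one] at h3
    exact h3
  have hs0 : s ≠ 0 := by
    intro h
    rw [h, map_zero] at hWs
    exact zero_ne_one hWs
  refine ⟨s, hsm, ?_⟩
  have hgr : (g s / s) ^ m = 1 := by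
    rw [div_pow, ← map_pow, hsm, g.commutes, ← hsm, div_self (pow_ne_zero _ hs0)]
  set η := g s / s with hη
  have hgs : g s = η * s := by
    rw [hη]
    field_simp
  have hgw := act_of_inert hg
  have hWg : ∀ x : M, W (g x) = W x := by
    intro x
    have h1 := Pool.Agent.TeamU.val_act g w x
    rwa [hgw] at h1
  have h1 : W (g s - 1) = W (s - 1) := by
    rw [← hWg (s - 1), map_sub g s 1, map_one]
  have h2 : W (η - 1) < W (m : M) := by
    have h3 : (η - 1) * s = (g s - 1) - (s - 1) := by
      rw [hgs]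
      ring
    have h4 : W (η - 1) = W ((η - 1) * s) := by rw [map_mul, hWs, mul_one]
    rw [h4, h3]
    refine (Valuation.map_sub _ _ _).trans_lt ?_
    rw [h1, max_self]
    exact hs1
  have h3 : η = 1 := by
    by_contra h4
    exact absurd (Pool.Agent.Q38.EX.val_root_sub_one W hm hζ hgr h4) (not_le.2 h2)
  rw [hη, div_eq_one_iff_eq hs0] at h3
  exact h3

/-- The Artin character of the base change to `E = F(x0^(1/m))` kills the divisors of all elements
prime to `N1`. -/
theorem core {F M E : Type} [Field F] [NumberField F] [Field M] [NumberField M] [Algebra F M]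
    [Field E] [NumberField E] [Algebra F E] (ψ : (M ≃ₐ[F] M) →* ℂˣ) (m N N1 : ℕ)
    (T : Finset (HeightOneSpectrum (𝓞 F))) (x0 : F) (r : E) (hN : N ≠ 0)
    (hfin : Module.finrank F E ≤ m) (hr : r ^ m = algebraMap F E x0)
    (hx0 : ∀ v ∈ T, v.valuation F x0 = WithZero.exp (-1)) (hNN : N ∣ N1)
    (hT1 : ∀ v ∈ T, (N1 : 𝓞 F) ∈ v.asIdeal)
    (h1 : ∀ x : Fˣ, Un N x → (∀ v ∈ T, v.valuation F ((x : F) - 1) < 1) → art ψ (prin x) = 0)
    (h2 : ∀ x : Fˣ, Un N x → (∀ v ∈ T, v.valuation F (x : F) = 1) → m • art ψ (prin x) = 0)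
    (x : Eˣ) (hx : Un N1 x) : art ψ (prin (nu F E x)) = 0 := by
  classical
  have hxN : Un N x := hx.mono hNN
  have hnu : ∀ x : Eˣ, Un N x → Un N (nu F E x) := by
    intro x hx v hv
    have h3 := Pool.Agent.Q106.AR.nm_Pr (F := F) (prin_mem hx)
    rw [Pool.Agent.Q106.AR.nm_prin] at h3
    exact val_one_of_prin (h3 v hv)
  rcases T.eq_empty_or_nonempty with hTe | ⟨v1, hv1⟩
  · refine h1 _ (hnu x hxN) fun v hv => ?_
    rw [hTe] at hv
    exact absurd hv (Finset.notMem_empty _)
  have hfm : Module.finrank F E = m := (tot v1 r m x0 hfin hr (hx0 v1 hv1)).1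
  -- local representatives
  have hc : ∀ v : HeightOneSpectrum (𝓞 F), ∃ c : Fˣ, v ∈ T → v.valuation F (c : F) = 1 ∧
      ∀ u : HeightOneSpectrum (𝓞 E), u.under (𝓞 F) = v →
        u.valuation E ((x : E) / algebraMap F E (c : F) - 1) < 1 := by
    intro v
    by_cases hv : v ∈ T
    · obtain ⟨-, u, hu, hur, huu⟩ := tot v r m x0 hfin hr (hx0 v hv)
      have hux : u.valuation E (x : E) = 1 := by
        refine hx u ?_
        have h3 := hT1 v hv
        rw [← hu] at h3
        have h4 : algebraMap (𝓞 F) (𝓞 E) (N1 : 𝓞 F) ∈ u.asIdeal := h3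
        rwa [map_natCast] at h4
      obtain ⟨c, hc1, hc2⟩ := exists_res (F := F) u hur (x : E) hux
      refine ⟨c, fun _ => ⟨?_, fun u' hu' => ?_⟩⟩
      · rw [← hu]
        exact hc1
      · rw [huu u' hu']
        exact hc2
    · exact ⟨1, fun h => absurd h hv⟩
  choose c hc using hc
  obtain ⟨y, -, hy⟩ := approx (T ∪ pN F N hN) (fun v => if v ∈ T then (c v : F) else 1) 1
  have hlt : (WithZero.exp (-((1 : ℕ) : ℤ)) : WithZero (Multiplicative ℤ)) < 1 := by
    rw [← WithZero.exp_zero, WithZero.exp_lt_exp]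
    norm_num
  have hyT : ∀ v ∈ T, v.valuation F ((y : F) - c v) < 1 := by
    intro v hv
    have h3 := hy v (Finset.mem_union_left _ hv)
    rw [if_pos hv] at h3
    exact h3.trans_lt hlt
  have hyT1 : ∀ v ∈ T, v.valuation F (y : F) = 1 := by
    intro v hv
    have h3 := Valuation.map_add_eq_of_lt_right (v.valuation F)
      (show v.valuation F ((y : F) - c v) < v.valuation F (c v : F) by
        rw [(hc v hv).1]; exact hyT v hv)
    rw [sub_add_cancel, (hc v hv).1] at h3
    exact h3
  have hyN : Un N y := by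
    intro v hv
    by_cases hvT : v ∈ T
    · exact hyT1 v hvT
    · have h3 := hy v (Finset.mem_union_right _ ((mem_pN hN v).2 hv))
      rw [if_neg hvT] at h3
      have h4 := Valuation.map_add_eq_of_lt_right (v.valuation F)
        (show v.valuation F ((y : F) - 1) < v.valuation F (1 : F) by
          rw [map_one]; exact h3.trans_lt hlt)
      rw [sub_add_cancel, map_one] at h4
      exact h4
  -- the quotient
  have hz : ∀ v ∈ T, v.valuation F ((nu F E (x / up F E y) : F) - 1) < 1 := by
    intro v hv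
    refine nu_near v _ fun u hu => ?_
    have hval : ∀ a : F, u.valuation E (algebraMap F E a) =
        v.valuation F a ^ (v.asIdeal.ramificationIdx' u.asIdeal) := by
      intro a
      rw [← hu]
      exact Pool.Agent.TeamU.val_over (Pool.Agent.Q38.EX.over_under (F := F) u) a
    have he : v.asIdeal.ramificationIdx' u.asIdeal ≠ 0 := by
      rw [← hu]
      exact Pool.Agent.Q38.EX.ram_ne_zero (F := F) u
    have hcv0 : algebraMap F E (c v : F) ≠ 0 := fun h => (c v).ne_zero ((map_eq_zero _).1 h)
    have hy0 : algebraMap F E (y : F) ≠ 0 := fun h => y.ne_zero ((map_eq_zero _).1 h)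
    have e1 : ((x / up F E y : Eˣ) : E) = (x : E) / algebraMap F E (y : F) := by
      rw [Units.val_div_eq_div_val]
      rfl
    have e2 : (x : E) / algebraMap F E (y : F) - 1 =
        ((x : E) / algebraMap F E (c v : F) - 1) * (algebraMap F E ((c v : F) / y)) +
        algebraMap F E (((c v : F) - y) / y) := by
      rw [map_div₀, map_div₀, map_sub]
      field_simp
      ring
    rw [e1, e2]
    refine (Valuation.map_add _ _ _).trans_lt (max_lt ?_ ?_)
    · rw [map_mul, hval, map_div₀, (hc v hv).1, hyT1 v hv, div_one, one_pow, mul_one]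
      exact (hc v hv).2 u hu
    · rw [hval, map_div₀, hyT1 v hv, div_one, Valuation.map_sub_swap]
      exact pow_lt_one₀ zero_le (hyT v hv) he
  have hnuy : nu F E (up F E y) = y ^ m := by
    ext
    have e1 : ((nu F E (up F E y) : Fˣ) : F) = Algebra.norm F (algebraMap F E (y : F)) := rfl
    rw [e1, Algebra.norm_algebraMap, hfm, Units.val_pow_eq_pow_val]
  have hdec : nu F E x = nu F E (x / up F E y) * y ^ m := by
    rw [← hnuy, ← map_mul, div_mul_cancel]
  have hUn : Un N (nu F E (x / up F E y)) := by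
    intro v hv
    have h3 := hnu x hxN v hv
    rw [hdec, Units.val_mul, map_mul, Units.val_pow_eq_pow_val, map_pow, hyN v hv, one_pow,
      mul_one] at h3
    exact h3
  have hpow : prin (y ^ m) = m • prin y := (prinHom (F := F)).map_nsmul m (Additive.ofMul y)
  rw [hdec, prin_mul, hpow, map_add, map_nsmul, h1 _ hUn hz, h2 y hyN hyT1, add_zero]

end Pool.Agent.H40.EX
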