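import Pool.Agent.H62.EX.Stm
import Pool.Agent.H40.EX.Core

/-! # Job EX-D: a character without conductor at `v` is unramified at `v` -/

set_option autoImplicit false
set_option linter.unusedSectionVars false
set_option linter.deprecated false

namespace Pool.Agent.H40.EX

open NumberField IsDedekindDomain Pool.Agent.Q5.BR Pool.Agent.Q92.AR Pool.Agent.Q20.EX
open Pool.Agent.Q285.EX (approx val_nat_eq)

/-- A character whose Artin character has its conductor in `T` (tame, exponent `m`) is unramified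
outside `T`; `m ≠ 0` is arbitrary. -/
theorem unr_outside (F M : Type) [Field F] [NumberField F] [Field M] [NumberField M] [Algebra F M]
    [IsGalois F M] (ψ : (M ≃ₐ[F] M) →* ℂˣ) (m N : ℕ) (T : Finset (HeightOneSpectrum (𝓞 F)))
    (hm : 0 < m) (hN : N ≠ 0)
    (h1 : ∀ x : Fˣ, Un N x → (∀ v ∈ T, v.valuation F ((x : F) - 1) < 1) → art ψ (prin x) = 0)
    (h2 : ∀ x : Fˣ, Un N x → (∀ v ∈ T, v.valuation F (x : F) = 1) → m • art ψ (prin x) = 0)
    (w : HeightOneSpectrum (𝓞 M)) (g : M ≃ₐ[F] M) (hw : w.under (𝓞 F) ∉ T) (hg : Inert w g) :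
    ψ g = 1 := by
  classical
  set v0 := w.under (𝓞 F) with hv0
  obtain ⟨j, hj⟩ := val_nat_eq v0 hm.ne'
  choose π hπ using fun v : HeightOneSpectrum (𝓞 F) => v.valuation_exists_uniformizer F
  obtain ⟨x0, -, hx0⟩ := approx (insert v0 T) (fun v => if v ∈ T then π v else 1) (2 * j + 2)
  have hx0T : ∀ v ∈ T, v.valuation F (x0 : F) = WithZero.exp (-1) := by
    intro v hv
    have h3 := hx0 v (Finset.mem_insert_of_mem hv)
    rw [if_pos hv] at h3
    have h4 := Valuation.map_add_eq_of_lt_right (v.valuation F)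
      (show v.valuation F ((x0 : F) - π v) < v.valuation F (π v) by
        rw [hπ v]
        refine h3.trans_lt ?_
        rw [WithZero.exp_lt_exp]
        push_cast
        omega)
    rw [sub_add_cancel, hπ v] at h4
    exact h4
  have hx01 : v0.valuation F ((x0 : F) - 1) < v0.valuation F (m : F) ^ 2 := by
    have h3 := hx0 v0 (Finset.mem_insert_self _ _)
    rw [if_neg hw] at h3
    refine h3.trans_lt ?_
    rw [hj, ← WithZero.exp_nsmul, WithZero.exp_lt_exp, nsmul_eq_mul]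
    push_cast
    omega
  obtain ⟨M1, _, _, _, _, _, _, ζ, r, hζ, hr⟩ := exists_big F M m hm (x0 : F)
  obtain ⟨Nr, hNr, hRr⟩ := Pool.Agent.Q280.AR.rF F M1
  obtain ⟨P, hP⟩ : ∃ P : ℕ, P = ∏ v ∈ T, Ideal.absNorm v.asIdeal := ⟨_, rfl⟩
  have hP0 : P ≠ 0 := by
    rw [hP]
    refine Finset.prod_ne_zero_iff.2 fun v _ => ?_
    rw [Ne, Ideal.absNorm_eq_zero_iff]
    exact v.ne_bot
  obtain ⟨N1, hN1⟩ : ∃ N1 : ℕ, N1 = N * (Nr * P) := ⟨_, rfl⟩
  have hN10 : N1 ≠ 0 := by
    rw [hN1]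
    exact mul_ne_zero hN (mul_ne_zero hNr hP0)
  have hNN : N ∣ N1 := hN1 ▸ Dvd.intro _ rfl
  have hR1 : Ram F M1 N1 := fun v hv => nat_mem (N := Nr) (by
    rw [hN1]
    exact ⟨N * P, by ring⟩) (hRr v hv)
  have hT1 : ∀ v ∈ T, (N1 : 𝓞 F) ∈ v.asIdeal := by
    intro v hv
    have h3 : (Ideal.absNorm v.asIdeal : 𝓞 F) ∈ v.asIdeal := Ideal.absNorm_mem _
    refine nat_mem (N := Ideal.absNorm v.asIdeal) ?_ h3
    rw [hN1, hP]
    exact (Finset.dvd_prod_of_mem (fun v : HeightOneSpectrum (𝓞 F) => Ideal.absNorm v.asIdeal)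
      hv).trans ⟨N * Nr, by ring⟩
  refine unr_of_top F M M1 ψ w g hg fun w1 hw1 g1 hg1 => ?_
  obtain ⟨r', hr', hgr'⟩ := exists_fixed_root hg1 hm hζ hr (by rw [hw1]; exact hx01)
  let E : IntermediateField F M1 := IntermediateField.adjoin F {r'}
  have hnE : NumberField E := inferInstance
  have hrE : r' ∈ E := IntermediateField.mem_adjoin_simple_self F r'
  have hfin : Module.finrank F E ≤ m := by
    have hint : IsIntegral F r' := Algebra.IsIntegral.isIntegral r'
    rw [IntermediateField.adjoin.finrank hint]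
    have hp : (Polynomial.X ^ m - Polynomial.C (x0 : F)) ≠ 0 :=
      Polynomial.X_pow_sub_C_ne_zero hm _
    have hd : minpoly F r' ∣ Polynomial.X ^ m - Polynomial.C (x0 : F) := by
      apply minpoly.dvd
      rw [map_sub, map_pow, Polynomial.aeval_X, Polynomial.aeval_C, hr', sub_self]
    have h3 := Polynomial.natDegree_le_of_dvd hd hp
    rwa [Polynomial.natDegree_X_pow_sub_C] at h3
  have hrEm : (⟨r', hrE⟩ : E) ^ m = algebraMap F E (x0 : F) := by
    apply Subtype.ext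
    exact hr'
  -- `g1` fixes `E`
  have hfix : ∀ x : E, g1 (algebraMap E M1 x) = algebraMap E M1 x := by
    have hle : E ≤ IntermediateField.fixedField (Subgroup.zpowers g1) := by
      rw [IntermediateField.adjoin_simple_le_iff, IntermediateField.mem_fixedField_iff]
      intro f hf
      have hst : Subgroup.zpowers g1 ≤ MulAction.stabilizer (M1 ≃ₐ[F] M1) r' := by
        rw [Subgroup.zpowers_le, MulAction.mem_stabilizer_iff]
        exact hgr'
      exact MulAction.mem_stabilizer_iff.1 (hst hf)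
    intro x
    have h3 := hle x.2
    rw [IntermediateField.mem_fixedField_iff] at h3
    exact h3 g1 (Subgroup.mem_zpowers g1)
  have hGE : IsGalois E M1 := inferInstance
  obtain ⟨gE, hgE⟩ : ∃ h : M1 ≃ₐ[E] M1, ∀ x, h x = g1 x :=
    ⟨AlgEquiv.ofRingEquiv (f := g1.toRingEquiv) hfix, fun _ => rfl⟩
  have hrs : rs F E M1 gE = g1 := by
    ext x
    exact hgE x
  let ψ1 : (M1 ≃ₐ[F] M1) →* ℂˣ := ψ.comp (AlgEquiv.restrictNormalHom (K₁ := M1) M)
  have htriv : TrivAt Set.univ N1 (art (ψ1.comp (rs F E M1))) := by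
    intro x hx _ _
    have hmem : prin (nu F E x) ∈ Pr F N1 := by
      rw [← Pool.Agent.Q106.AR.nm_prin]
      exact Pool.Agent.Q106.AR.nm_Pr (prin_mem hx)
    rw [Pool.Agent.Q275.EX.res F E M1 ψ1 N1 hN10 hR1 (prin x) (prin_mem hx),
      Pool.Agent.Q106.AR.nm_prin, art_inf ψ hR1 hmem]
    exact core ψ m N N1 T (x0 : F) (⟨r', hrE⟩ : E) hN hfin hrEm hx0T hNN hT1 h1 h2 x hx
  have hin : Inert w1 gE := fun x => by
    rw [hgE]
    exact hg1 x
  have hfinal := Pool.Agent.Q53.EX.unr0 Pool.Agent.Q285.EX.ncg E M1 (ψ1.comp (rs F E M1)) N1 hN10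
    (Pool.Agent.Q53.EX.ram_top (K := F) hR1) htriv w1 gE hin
  rw [MonoidHom.comp_apply, hrs] at hfinal
  exact hfinal

/-- **JOB D.** -/
theorem sD : Pool.Agent.H62.EX.S_D := by
  intro F M _ _ _ _ _ _ _ ψ ℓ n N T hℓ hN _ _ h1 h2 w g hw hg
  exact unr_outside F M ψ (ℓ ^ n) N T (pow_pos hℓ.pos n) hN h1 h2 w g hw hg

end Pool.Agent.H40.EX
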