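import Pool.Graph.R_pool_sql_team_seeded_3997aac3.Q106.AR.NmB
import Pool.Graph.R_pool_sql_team_seeded_3997aac3.Q53.EX.UnrD
import Pool.Graph.R_pool_sql_team_seeded_3997aac3.Q38.EX.NrmB

/-! # Job EX-D: norms of elements near to elements of the base field, totally ramified primes -/

set_option autoImplicit false
set_option linter.unusedSectionVars false

namespace Pool.Agent.H40.EX

open NumberField IsDedekindDomain Pool.Agent.Q5.BR Pool.Agent.Q92.AR Pool.Agent.W353.NF

variable {F E : Type} [Field F] [NumberField F] [Field E] [NumberField E] [Algebra F E]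

/-- The norm of an element which is congruent to an element of `F` modulo all primes above `v`. -/
theorem norm_sub_mem (v : HeightOneSpectrum (𝓞 F)) (s : 𝓞 F) (z : 𝓞 E)
    (hz : ∀ u : HeightOneSpectrum (𝓞 E), u.under (𝓞 F) = v → z ∈ u.asIdeal) :
    ∃ a : 𝓞 F, (a : F) = Algebra.norm F (algebraMap F E (s : F) + (z : E)) ∧
      a - s ^ Module.finrank F E ∈ v.asIdeal := by
  classical
  have hint : IsIntegral ℤ (algebraMap F E (s : F) + (z : E)) :=
    ((RingOfIntegers.isIntegral_coe s).algebraMap).add (RingOfIntegers.isIntegral_coe z)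
  have hint2 : IsIntegral ℤ (Algebra.norm F (algebraMap F E (s : F) + (z : E))) :=
    Algebra.isIntegral_norm F hint
  obtain ⟨a, ha⟩ : ∃ a : 𝓞 F, (a : F) = Algebra.norm F (algebraMap F E (s : F) + (z : E)) :=
    ⟨⟨_, hint2⟩, rfl⟩
  refine ⟨a, ha, ?_⟩
  obtain ⟨σ, Q, hQm, hQv, hQ⟩ := Pool.Agent.W401.Frob.exists_frob v
  have hQp : Q.IsPrime := hQm.isPrime
  -- all embeddings map `z` to `Q`
  have h1 : ∀ i : E →ₐ[F] AlgebraicClosure F, oi i z ∈ Q := by
    intro i
    have hc : (Q.comap (oi i)).comap (algebraMap (𝓞 F) (𝓞 E)) = v.asIdeal := by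
      rw [← hQv]
      ext b
      rw [Ideal.mem_comap, Ideal.mem_comap, Ideal.mem_comap, oi_alg]
    have hp : (Q.comap (oi i)).IsPrime := Ideal.comap_isPrime _ _
    have h0 : Q.comap (oi i) ≠ ⊥ := by
      intro h
      apply v.ne_bot
      rw [← hc, h, ← RingHom.ker_eq_comap_bot]
      exact (RingHom.injective_iff_ker_eq_bot _).1 (FaithfulSMul.algebraMap_injective (𝓞 F) (𝓞 E))
    exact hz ⟨Q.comap (oi i), hp, h0⟩ (HeightOneSpectrum.ext hc)
  have h2 : algebraMap (𝓞 F) (𝓞 (AlgebraicClosure F)) a =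
      ∏ i : E →ₐ[F] AlgebraicClosure F, (algebraMap (𝓞 F) (𝓞 (AlgebraicClosure F)) s + oi i z) := by
    apply RingOfIntegers.ext
    have e1 : ((algebraMap (𝓞 F) (𝓞 (AlgebraicClosure F)) a : 𝓞 (AlgebraicClosure F)) :
        AlgebraicClosure F) = algebraMap F (AlgebraicClosure F) (a : F) := rfl
    rw [e1, ha, Algebra.norm_eq_prod_embeddings]
    change _ = algebraMap (𝓞 (AlgebraicClosure F)) (AlgebraicClosure F) _
    rw [map_prod]
    refine Finset.prod_congr rfl fun i _ => ?_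
    rw [map_add, map_add]
    congr 1
    exact i.commutes (s : F)
  rw [← hQv, Ideal.mem_comap, map_sub, map_pow, ← Ideal.Quotient.eq, h2, map_prod]
  have h3 : ∀ i : E →ₐ[F] AlgebraicClosure F, Ideal.Quotient.mk Q
      (algebraMap (𝓞 F) (𝓞 (AlgebraicClosure F)) s + oi i z) =
      Ideal.Quotient.mk Q (algebraMap (𝓞 F) (𝓞 (AlgebraicClosure F)) s) := by
    intro i
    rw [map_add, Ideal.Quotient.eq_zero_iff_mem.2 (h1 i), add_zero]
  rw [Finset.prod_congr rfl fun i _ => h3 i, Finset.prod_const, Finset.card_univ, AlgHom.card,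
    map_pow]

/-- The norm of an element near to `1` at all primes above `v`. -/
theorem nu_near (v : HeightOneSpectrum (𝓞 F)) (y : Eˣ)
    (hy : ∀ u : HeightOneSpectrum (𝓞 E), u.under (𝓞 F) = v → u.valuation E ((y : E) - 1) < 1) :
    v.valuation F ((nu F E y : F) - 1) < 1 := by
  obtain ⟨s, hs, z, hz⟩ := Pool.Agent.Q106.AR.exists_den (E := E) v ((y : E) - 1)
    (fun w hw => (hy w hw).le)
  have h1 : ∀ u : HeightOneSpectrum (𝓞 E), u.under (𝓞 F) = v → z ∈ u.asIdeal := by
    intro u hu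
    rw [← u.valuation_lt_one_iff_mem (K := E)]
    change u.valuation E (z : E) < 1
    rw [← hz, map_mul]
    have h0 : u.valuation E (algebraMap F E (s : F)) ≤ 1 :=
      u.valuation_le_one (K := E) (algebraMap (𝓞 F) (𝓞 E) s)
    exact (mul_le_of_le_one_left' h0).trans_lt (hy u hu)
  obtain ⟨a, ha, hav⟩ := norm_sub_mem v s z h1
  have h2 : algebraMap F E (s : F) + (z : E) = algebraMap F E (s : F) * (y : E) := by
    rw [← hz]
    ring
  rw [h2, map_mul, Algebra.norm_algebraMap] at ha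
  have h3 : v.valuation F (s : F) = 1 :=
    (HeightOneSpectrum.valuation_eq_one_iff_notMem (K := F) v (r := s)).2 hs
  have h4 : v.valuation F (((a - s ^ Module.finrank F E : 𝓞 F)) : F) < 1 :=
    (v.valuation_lt_one_iff_mem (K := F) _).2 hav
  have h5 : (((a - s ^ Module.finrank F E : 𝓞 F)) : F) =
      (s : F) ^ Module.finrank F E * ((nu F E y : F) - 1) := by
    have e1 : (nu F E y : F) = Algebra.norm F (y : E) := rfl
    have e2 : (((a - s ^ Module.finrank F E : 𝓞 F)) : F) = (a : F) - (s : F) ^ Module.finrank F E :=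
      rfl
    rw [e2, e1, mul_sub, ha, mul_one]
  rw [h5, map_mul, map_pow, h3, one_pow, one_mul] at h4
  exact h4

/-- there is a prime above `v` -/
theorem exists_above (v : HeightOneSpectrum (𝓞 F)) :
    ∃ w : HeightOneSpectrum (𝓞 E), w.under (𝓞 F) = v := by
  have hvp : v.asIdeal.IsPrime := v.isPrime
  obtain ⟨Q, -, hQ, hQv⟩ := Ideal.exists_ideal_over_prime_of_isIntegral (S := 𝓞 E) v.asIdeal ⊥ (by
    rw [← RingHom.ker_eq_comap_bot,
      (RingHom.injective_iff_ker_eq_bot _).1 (FaithfulSMul.algebraMap_injective (𝓞 F) (𝓞 E))]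
    exact bot_le)
  have hQ0 : Q ≠ ⊥ := by
    intro h
    apply v.ne_bot
    rw [← hQv, h, ← RingHom.ker_eq_comap_bot]
    exact (RingHom.injective_iff_ker_eq_bot _).1 (FaithfulSMul.algebraMap_injective (𝓞 F) (𝓞 E))
  exact ⟨⟨Q, hQ, hQ0⟩, HeightOneSpectrum.ext hQv⟩

/-- a prime at which the `m`-th power of a generator is a uniformizer is totally ramified -/
theorem tot (v : HeightOneSpectrum (𝓞 F)) (r : E) (m : ℕ) (x0 : F)
    (hm : Module.finrank F E ≤ m) (hr : r ^ m = algebraMap F E x0)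
    (hx0 : v.valuation F x0 = WithZero.exp (-1)) :
    Module.finrank F E = m ∧ ∃ u : HeightOneSpectrum (𝓞 E), u.under (𝓞 F) = v ∧ rdeg F u = 1 ∧
      ∀ u' : HeightOneSpectrum (𝓞 E), u'.under (𝓞 F) = v → u' = u := by
  classical
  have hpos : 0 < Module.finrank F E := Module.finrank_pos
  have hx00 : x0 ≠ 0 := by
    rintro rfl
    rw [map_zero] at hx0
    exact WithZero.exp_ne_zero hx0.symm
  have hr0 : r ≠ 0 := by
    rintro rfl
    rw [zero_pow (by omega)] at hr
    exact hx00 ((map_eq_zero (algebraMap F E)).1 hr.symm)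
  have he : ∀ u : HeightOneSpectrum (𝓞 E), u.under (𝓞 F) = v →
      m ≤ Ideal.ramificationIdx' v.asIdeal u.asIdeal := by
    intro u hu
    have h1 : u.valuation E (algebraMap F E x0) =
        v.valuation F x0 ^ (v.asIdeal.ramificationIdx' u.asIdeal) := by
      rw [← hu]
      exact Pool.Agent.TeamU.val_over (Pool.Agent.Q38.EX.over_under (F := F) u) x0
    have h0 : v.asIdeal.ramificationIdx' u.asIdeal ≠ 0 := by
      rw [← hu]
      exact Pool.Agent.Q38.EX.ram_ne_zero (F := F) u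
    rw [← hr, map_pow, hx0, ← WithZero.exp_nsmul] at h1
    have h2 : u.valuation E r ≠ 0 := (Valuation.ne_zero_iff _).2 hr0
    obtain ⟨k, hk⟩ : ∃ k : ℤ, u.valuation E r = WithZero.exp k :=
      ⟨WithZero.log (u.valuation E r), (WithZero.exp_log h2).symm⟩
    rw [hk, ← WithZero.exp_nsmul, WithZero.exp_inj] at h1
    have h3 : (m : ℤ) ∣ (v.asIdeal.ramificationIdx' u.asIdeal : ℤ) := by
      refine ⟨-k, ?_⟩
      have h4 : (m : ℤ) * k = (v.asIdeal.ramificationIdx' u.asIdeal : ℤ) * (-1) := by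
        simpa using h1
      linarith
    exact Nat.le_of_dvd (Nat.pos_of_ne_zero h0) (by exact_mod_cast h3)
  have hsum := Pool.Agent.Q53.EX.Unr.sum_er (M := E) v
  obtain ⟨u, hu⟩ := exists_above (E := E) v
  have hua : u ∈ above E v := mem_above.2 hu
  have hrd := rdeg_pos (K := F) u
  have hle : Ideal.ramificationIdx' v.asIdeal u.asIdeal * rdeg F u ≤ Module.finrank F E := by
    rw [← hsum]
    exact Finset.single_le_sum (f := fun w : HeightOneSpectrum (𝓞 E) =>
      Ideal.ramificationIdx' v.asIdeal w.asIdeal * rdeg F w) (fun _ _ => Nat.zero_le _) hua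
  have heu := he u hu
  have h1 : m * rdeg F u ≤ Module.finrank F E := (Nat.mul_le_mul_right _ heu).trans hle
  have hfin : Module.finrank F E = m := by nlinarith
  have hr1 : rdeg F u = 1 := by
    by_contra h
    have h2 : 2 ≤ rdeg F u := by omega
    nlinarith
  refine ⟨hfin, u, hu, hr1, fun u' hu' => ?_⟩
  by_contra hne
  have hua' : u' ∈ above E v := mem_above.2 hu'
  have hle2 : Ideal.ramificationIdx' v.asIdeal u.asIdeal * rdeg F u +
      Ideal.ramificationIdx' v.asIdeal u'.asIdeal * rdeg F u' ≤ Module.finrank F E := by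
    rw [← hsum, ← Finset.sum_pair (f := fun w : HeightOneSpectrum (𝓞 E) =>
      Ideal.ramificationIdx' v.asIdeal w.asIdeal * rdeg F w) (Ne.symm hne)]
    refine Finset.sum_le_sum_of_subset ?_
    intro w hw
    rw [Finset.mem_insert, Finset.mem_singleton] at hw
    rcases hw with rfl | rfl
    · exact hua
    · exact hua'
  have hrd' := rdeg_pos (K := F) u'
  have heu' := he u' hu'
  have h2 : m * 1 ≤ Ideal.ramificationIdx' v.asIdeal u'.asIdeal * rdeg F u' :=
    Nat.mul_le_mul heu' hrd'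
  have h3 : m * 1 ≤ Ideal.ramificationIdx' v.asIdeal u.asIdeal * rdeg F u :=
    Nat.mul_le_mul heu hrd
  omega

/-- representatives in `F` of the units at a prime of degree one -/
theorem exists_res (u : HeightOneSpectrum (𝓞 E)) (hf : rdeg F u = 1) (y : E)
    (hy : u.valuation E y = 1) : ∃ c : Fˣ, (u.under (𝓞 F)).valuation F (c : F) = 1 ∧
      u.valuation E (y / algebraMap F E (c : F) - 1) < 1 := by
  classical
  have hum : u.asIdeal.IsMaximal := u.isMaximal
  have hvm : (u.under (𝓞 F)).asIdeal.IsMaximal := (u.under (𝓞 F)).isMaximal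
  obtain ⟨n, d, hnd⟩ := HeightOneSpectrum.exists_primeCompl_mul_eq_of_integer u y hy.le
  have hd : (d : 𝓞 E) ∉ u.asIdeal := d.2
  obtain ⟨d', i, hi, hdi⟩ := hum.exists_inv hd
  -- an integral element near to `y`
  have h1 : u.valuation E (y - ((n * d' : 𝓞 E) : E)) < 1 := by
    have e1 : y - ((n * d' : 𝓞 E) : E) = y * (i : E) := by
      have e2 : ((n * d' : 𝓞 E) : E) = (n : E) * (d' : E) := rfl
      have e3 : (d' : E) * ((d : 𝓞 E) : E) + (i : E) = 1 := by
        have := congrArg (fun t : 𝓞 E => (t : E)) hdi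
        exact this
      have e4 : y * ((d : 𝓞 E) : E) = (n : E) := hnd
      rw [e2, ← e4]
      linear_combination (-y) * e3
    rw [e1, map_mul, hy, one_mul]
    exact (u.valuation_lt_one_iff_mem (K := E) i).2 hi
  have hlo : u.asIdeal.LiesOver (u.under (𝓞 F)).asIdeal := ⟨rfl⟩
  have hfinF : Finite (𝓞 F ⧸ (u.under (𝓞 F)).asIdeal) :=
    Ideal.finiteQuotientOfFreeOfNeBot _ (u.under (𝓞 F)).ne_bot
  have hfinE : Finite (𝓞 E ⧸ u.asIdeal) := Ideal.finiteQuotientOfFreeOfNeBot _ u.ne_bot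
  have hcard : Nat.card (𝓞 F ⧸ (u.under (𝓞 F)).asIdeal) = Nat.card (𝓞 E ⧸ u.asIdeal) := by
    have h2 := absNorm_rdeg (K := F) u
    rw [hf, pow_one, Ideal.absNorm_apply, Ideal.absNorm_apply, Submodule.cardQuot_apply,
      Submodule.cardQuot_apply] at h2
    exact h2.symm
  let _ : Field (𝓞 F ⧸ (u.under (𝓞 F)).asIdeal) := Ideal.Quotient.field _
  let _ : Field (𝓞 E ⧸ u.asIdeal) := Ideal.Quotient.field _
  have hinj : Function.Injective (algebraMap (𝓞 F ⧸ (u.under (𝓞 F)).asIdeal) (𝓞 E ⧸ u.asIdeal)) :=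
    (algebraMap (𝓞 F ⧸ (u.under (𝓞 F)).asIdeal) (𝓞 E ⧸ u.asIdeal)).injective
  have hsur : Function.Surjective (algebraMap (𝓞 F ⧸ (u.under (𝓞 F)).asIdeal) (𝓞 E ⧸ u.asIdeal)) :=
    ((Nat.bijective_iff_injective_and_card _).2 ⟨hinj, hcard⟩).2
  obtain ⟨c', hc'⟩ := hsur (Ideal.Quotient.mk _ (n * d'))
  obtain ⟨c0, rfl⟩ := Ideal.Quotient.mk_surjective c'
  rw [Ideal.Quotient.algebraMap_mk_of_liesOver, Ideal.Quotient.eq] at hc'
  have h3 : u.valuation E ((algebraMap (𝓞 F) (𝓞 E) c0 - n * d' : 𝓞 E) : E) < 1 :=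
    (u.valuation_lt_one_iff_mem (K := E) _).2 hc'
  have h4 : u.valuation E (y - algebraMap F E (c0 : F)) < 1 := by
    have e1 : y - algebraMap F E (c0 : F) = (y - ((n * d' : 𝓞 E) : E)) -
        ((algebraMap (𝓞 F) (𝓞 E) c0 - n * d' : 𝓞 E) : E) := by
      have e2 : ((algebraMap (𝓞 F) (𝓞 E) c0 - n * d' : 𝓞 E) : E) =
        algebraMap F E (c0 : F) - ((n * d' : 𝓞 E) : E) := rfl
      rw [e2]
      ring
    rw [e1]
    exact (Valuation.map_sub _ _ _).trans_lt (max_lt h1 h3)
  have h5 : u.valuation E (algebraMap F E (c0 : F)) = 1 := by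
    have h6 := Valuation.map_sub_eq_of_lt_left (u.valuation E)
      (show u.valuation E (y - algebraMap F E (c0 : F)) < u.valuation E y by rw [hy]; exact h4)
    rw [sub_sub_cancel, hy] at h6
    exact h6
  have hc0 : (c0 : F) ≠ 0 := by
    intro h
    rw [h, map_zero, map_zero] at h5
    exact zero_ne_one h5
  refine ⟨Units.mk0 (c0 : F) hc0, ?_, ?_⟩
  · rw [Units.val_mk0]
    have h6 := Pool.Agent.TeamU.val_over (Pool.Agent.Q38.EX.over_under (F := F) u) (c0 : F)
    rw [h5] at h6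
    exact (pow_eq_one_iff.1 h6.symm).resolve_right (Pool.Agent.Q38.EX.ram_ne_zero (F := F) u)
  · rw [Units.val_mk0]
    have hne : algebraMap F E (c0 : F) ≠ 0 := fun h => hc0 ((map_eq_zero _).1 h)
    have e1 : y / algebraMap F E (c0 : F) - 1 = (y - algebraMap F E (c0 : F)) /
        algebraMap F E (c0 : F) := by
      field_simp
    rw [e1, map_div₀, h5, div_one]
    exact h4

end Pool.Agent.H40.EX
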